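import Pool.Agent.Q173.KS.Stm

/-!
# Project KS: job INS1 (one star inserts its centre into the invariant set)
-/

set_option autoImplicit false

namespace Pool.Agent.Q182.KS

open Pool.Agent.Q173.KS Finset

/-- the transpositions of the star join its centre to a leaf -/
lemma starL_mem {α : Type} (l : α) (xs : List α) :
    ∀ o ∈ starL l xs, o.a = l ∧ o.b ∈ xs := by
  induction xs with
  | nil => intro o ho; simp [Q173.KS.starL] at ho
  | cons x xs ih =>
    intro o ho
    rw [Q173.KS.starL, List.mem_append] at ho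
    rcases ho with ho | ho
    · exact ⟨(ih o ho).1, List.mem_cons_of_mem _ (ih o ho).2⟩
    · rw [List.mem_singleton] at ho
      subst ho
      exact ⟨rfl, List.mem_cons_self⟩

section
variable {α : Type} [DecidableEq α]

/-- cardinality of the trace on `insert l X` -/
lemma card_inter_insert (R X : Finset α) (l : α) (hl : l ∉ X) :
    (R ∩ insert l X).card = (R ∩ X).card + (if l ∈ R then 1 else 0) := by
  by_cases h : l ∈ R
  · rw [if_pos h, inter_insert_of_mem h, card_insert_of_notMem]
    intro h1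
    exact hl (mem_inter.1 h1).2
  · rw [if_neg h, inter_insert_of_notMem h, add_zero]

/-- two sets with the same trace outside `insert l X`, the same number of points in it, which
both contain `l` or both do not contain `l`, have the same value -/
lemma phi_eq (k : ℕ) (X : Finset α) (l : α) (Φ : Finset α → ℝ) (hl : l ∉ X)
    (hI : InvOn k X Φ) (R R' : Finset α) (hk : R.card ≤ k)
    (h1 : R \ insert l X = R' \ insert l X)
    (h2 : (R ∩ insert l X).card = (R' ∩ insert l X).card)
    (h3 : l ∈ R ↔ l ∈ R') : Φ R = Φ R' := by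
  refine hI R R' hk ?_ ?_
  · ext x
    by_cases hx : x = l
    · subst hx
      simp only [mem_sdiff]
      rw [h3]
    · have h4 := congrArg (fun s : Finset α => x ∈ s) h1
      simp only [mem_sdiff, mem_insert, hx, false_or] at h4
      simp only [mem_sdiff]
      rw [h4]
  · rw [card_inter_insert _ _ _ hl, card_inter_insert _ _ _ hl] at h2
    by_cases h : l ∈ R
    · rw [if_pos h, if_pos (h3.1 h)] at h2
      exact Nat.add_right_cancel h2
    · rw [if_neg h, if_neg (fun h' => h (h3.2 h'))] at h2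
      exact h2

/-- the two values -/
lemma values (k : ℕ) (X : Finset α) (l : α) (Φ : Finset α → ℝ) (hl : l ∉ X)
    (hI : InvOn k X Φ) (A : Finset α) (j : ℕ) (hk : A.card + j ≤ k) :
    ∃ v0 v1 : ℝ, ∀ R : Finset α, R \ insert l X = A → (R ∩ insert l X).card = j →
      Φ R = v0 + (v1 - v0) * (if l ∈ R then 1 else 0) := by
  have hcard : ∀ R : Finset α, R \ insert l X = A → (R ∩ insert l X).card = j → R.card ≤ k := by
    intro R h1 h2
    have h3 := card_sdiff_add_card_inter R (insert l X)
    rw [h1, h2] at h3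
    omega
  have e1 : ∃ v1 : ℝ, ∀ R : Finset α, R \ insert l X = A → (R ∩ insert l X).card = j →
      l ∈ R → Φ R = v1 := by
    by_cases h : ∃ R : Finset α, R \ insert l X = A ∧ (R ∩ insert l X).card = j ∧ l ∈ R
    · obtain ⟨R₀, a1, a2, a3⟩ := h
      exact ⟨Φ R₀, fun R b1 b2 b3 => phi_eq k X l Φ hl hI R R₀ (hcard R b1 b2)
        (b1.trans a1.symm) (b2.trans a2.symm) ⟨fun _ => a3, fun _ => b3⟩⟩
    · exact ⟨0, fun R b1 b2 b3 => absurd ⟨R, b1, b2, b3⟩ h⟩
  have e0 : ∃ v0 : ℝ, ∀ R : Finset α, R \ insert l X = A → (R ∩ insert l X).card = j →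
      l ∉ R → Φ R = v0 := by
    by_cases h : ∃ R : Finset α, R \ insert l X = A ∧ (R ∩ insert l X).card = j ∧ l ∉ R
    · obtain ⟨R₀, a1, a2, a3⟩ := h
      exact ⟨Φ R₀, fun R b1 b2 b3 => phi_eq k X l Φ hl hI R R₀ (hcard R b1 b2)
        (b1.trans a1.symm) (b2.trans a2.symm) ⟨fun h' => absurd h' b3, fun h' => absurd h' a3⟩⟩
    · exact ⟨0, fun R b1 b2 b3 => absurd ⟨R, b1, b2, b3⟩ h⟩
  obtain ⟨v1, hv1⟩ := e1
  obtain ⟨v0, hv0⟩ := e0
  refine ⟨v0, v1, fun R b1 b2 => ?_⟩
  by_cases h : l ∈ R
  · rw [if_pos h, hv1 R b1 b2 h]; ring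
  · rw [if_neg h, hv0 R b1 b2 h]; ring

/-- facts on the permutations which fix the points outside `T` -/
lemma perm_facts (T : Finset α) (σ : Equiv.Perm α) (hσ : ∀ y ∉ T, σ y = y) (S : Finset α) :
    (S.map σ.toEmbedding) \ T = S \ T ∧
    ((S.map σ.toEmbedding) ∩ T).card = (S ∩ T).card ∧
    ∀ l ∈ T, ∑ z ∈ S ∩ T, (if σ z = l then (1 : ℝ) else 0)
      = if l ∈ S.map σ.toEmbedding then 1 else 0 := by
  have hinv : ∀ y ∉ T, σ.symm y = y := by
    intro y hy
    rw [Equiv.symm_apply_eq]
    exact (hσ y hy).symm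
  have h1 : (S.map σ.toEmbedding) \ T = S \ T := by
    ext x
    rw [mem_sdiff, mem_sdiff, mem_map_equiv]
    constructor
    · rintro ⟨a, b⟩
      rw [hinv x b] at a
      exact ⟨a, b⟩
    · rintro ⟨a, b⟩
      rw [hinv x b]
      exact ⟨a, b⟩
  refine ⟨h1, ?_, ?_⟩
  · have h2 := card_sdiff_add_card_inter (S.map σ.toEmbedding) T
    have h3 := card_sdiff_add_card_inter S T
    rw [h1, card_map] at h2
    omega
  · intro l hl
    have hT : σ.symm l ∈ T := by
      by_contra h
      have h4 := hσ _ h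
      rw [Equiv.apply_symm_apply] at h4
      rw [← h4] at h
      exact h hl
    have h5 : ∀ z : α, (σ z = l) = (z = σ.symm l) := by
      intro z
      rw [eq_iff_iff]
      exact (Equiv.eq_symm_apply σ).symm
    simp only [h5]
    rw [Finset.sum_ite_eq']
    by_cases h6 : σ.symm l ∈ S
    · rw [if_pos (mem_inter.2 ⟨h6, hT⟩), if_pos (mem_map_equiv.2 h6)]
    · rw [if_neg (fun h => h6 (mem_inter.1 h).1), if_neg (fun h => h6 (mem_map_equiv.1 h))]

/-- the value of the state after the star -/
lemma star_value (hSTAR : S_STAR) (X : Finset α) (l : α) (Φ : Finset α → ℝ)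
    (hl : l ∉ X) (S : Finset α) (v0 v1 : ℝ)
    (hv : ∀ R : Finset α, R \ insert l X = S \ insert l X →
      (R ∩ insert l X).card = (S ∩ insert l X).card →
      Φ R = v0 + (v1 - v0) * (if l ∈ R then 1 else 0)) :
    ES (starL l X.toList) Φ S
      = v0 + (v1 - v0) * ((S ∩ insert l X).card * (1 / ((X.card : ℝ) + 1))) := by
  unfold ES
  have h1 : EP (starL l X.toList) (fun σ => Φ (S.map σ.toEmbedding))
      = EP (starL l X.toList) (fun σ => v0 + (v1 - v0) *
          ∑ z ∈ S ∩ insert l X, (if σ z = l then (1 : ℝ) else 0)) := by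
    refine EP_congr_fix (Y := {y | y ∉ insert l X}) ?_ ?_
    · intro o ho
      obtain ⟨a1, a2⟩ := starL_mem l X.toList o ho
      rw [mem_toList] at a2
      constructor
      · intro h
        exact h (by rw [a1]; exact mem_insert_self _ _)
      · intro h
        exact h (mem_insert_of_mem a2)
    · intro σ hσ
      obtain ⟨b1, b2, b3⟩ := perm_facts (insert l X) σ (fun y hy => hσ y hy) S
      rw [hv _ b1 b2, b3 l (mem_insert_self _ _)]
  rw [h1, EP_add, EP_const, EP_mul, EP_sum]
  have h2 : ∀ z ∈ S ∩ insert l X,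
      EP (starL l X.toList) (fun σ => if σ z = l then (1 : ℝ) else 0)
        = 1 / ((X.card : ℝ) + 1) := by
    intro z hz
    have h3 := hSTAR α l X.toList
      (List.nodup_cons.2 ⟨fun h => hl (mem_toList.1 h), X.nodup_toList⟩) z
      (by
        rcases mem_insert.1 (mem_inter.1 hz).2 with h | h
        · rw [h]; exact List.mem_cons_self
        · exact List.mem_cons_of_mem _ (mem_toList.2 h))
    rw [h3, length_toList]
  rw [Finset.sum_congr rfl h2, Finset.sum_const, nsmul_eq_mul]

end

/-- JOB INS1 -/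
theorem ins1 (hSTAR : S_STAR) : S_INS1 := by
  intro α _ k X l Φ hl hI S S' hk h1 h2
  have hc : (S \ insert l X).card + (S ∩ insert l X).card ≤ k := by
    rw [card_sdiff_add_card_inter]
    exact hk
  obtain ⟨v0, v1, hv⟩ := values k X l Φ hl hI (S \ insert l X) (S ∩ insert l X).card hc
  rw [star_value hSTAR X l Φ hl S v0 v1 hv,
    star_value hSTAR X l Φ hl S' v0 v1 (fun R a b => hv R (a.trans h1.symm)
      (b.trans h2.symm)), h2]

end Pool.Agent.Q182.KS
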